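import Pool.Agent.BLBC.Main

set_option autoImplicit false

open Finset N16549fb1

namespace Pool.Agent.Results.MP_61f68f_co.ConvexSubset

/-- Every point of the finite set `C` is a vertex of the convex hull of `C`. -/
def ConvexPosition (C : Finset (ℝ × ℝ)) : Prop :=
  ∀ q ∈ C, q ∉ convexHull ℝ ((C : Set (ℝ × ℝ)) \ {q})

theorem result :
    (∀ l : ℕ, 2 ≤ l → ∀ A C : Finset (ℝ × ℝ), C ⊆ A → ConvexPosition C →
      (∀ S : Finset (ℝ × ℝ), S ⊆ C → S.card = l → ¬ PairwiseMutuallyVisible A S) →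
      3 * (C.card : ℝ) * Real.log (C.card / (4 * l)) ≤
        2 * ((l : ℝ) ^ 3 - l) * ((A \ C).card : ℝ)) ∧
    (∀ ε : ℝ, 0 < ε → ∀ l : ℕ, ∃ n₀ : ℕ, ∀ A : Finset (ℝ × ℝ), n₀ ≤ A.card →
      (∃ C ⊆ A, ConvexPosition C ∧ ε * A.card ≤ C.card) →
      ∃ S : Finset (ℝ × ℝ), S.card = l ∧ PairwiseMutuallyVisible A S) :=
  ⟨fun l hl A C hCA hC hvis => Pool.Agent.BLBC.main l hl A C hCA hC hvis,
    fun ε hε l => Pool.Agent.BLBC.proportion ε hε l⟩

end Pool.Agent.Results.MP_61f68f_co.ConvexSubset
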